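import Pool.Agent.L0h96.BoxExample

/-!
# The topologization of Kuratowski-Painlevé convergence over the box metric is not Hausdorff

`MM` is the set `𝒳` of (isomorphism classes of) mm-spaces with the box distance, `Closeds MM` is
`𝓕(𝒳, □)` and `tauK MM` is the topology `τK`, the finest topology on `Closeds MM` in which every
Kuratowski-Painlevé convergent net of closed sets converges to its limit (`isLeast_tauK`).

Proof. Let `y` be the one-point mm-space. For each `k` there is a sequence `x k n` of mm-spaces with
`□(x k n, y) ≤ 1 / (k + 1)` which has no cluster point in `𝒳` (mass `1 - ε` at one point, the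
rest is spread over more and more points at distance at least one). So `{x k n}` converges to `∅` as
`n → ∞` in the sense of Kuratowski and Painlevé, while every sequence `{x k (n k)}` converges to `{y}`
as `k → ∞`. Hence `∅` and `{y}` have no disjoint open neighbourhoods in any topology in which
Kuratowski-Painlevé convergent nets converge.
-/

set_option autoImplicit false

open TopologicalSpace Topology

namespace Pool.Agent.Results.MP_3b4475_gt.NotHausdorff

open Pool.Agent.L0h96.Box

/-- There are two distinct closed subsets of `(𝒳, □)` without disjoint `τK`-open neighbourhoods; so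
`τK` is not Hausdorff (Q1), and it is not metrizable (Q2). -/
theorem result :
    (∃ A B : Closeds MM, A ≠ B ∧ ∀ O P : Set (Closeds MM), IsOpen[tauK MM] O → IsOpen[tauK MM] P →
      A ∈ O → B ∈ P → (O ∩ P).Nonempty) ∧
    ¬ @T2Space (Closeds MM) (tauK MM) ∧
    ¬ @MetrizableSpace (Closeds MM) (tauK MM) := by
  have hne : (⊥ : Closeds MM) ≠ Closeds.closure {cls pt} := by
    intro h
    have h1 : cls pt ∈ (Closeds.closure {cls pt} : Closeds MM) := subset_closure rfl
    rw [← h] at h1
    exact h1
  have hT2 : ¬ @T2Space (Closeds MM) (tauK MM) := by
    intro hT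
    obtain ⟨O, P, hO, hP, h0, h1, hd⟩ := @t2_separation (Closeds MM) (tauK MM) hT _ _ hne
    obtain ⟨z, hz⟩ := box_not_separated compatible_tauK O P hO hP h0 h1
    exact Set.disjoint_left.1 hd hz.1 hz.2
  refine ⟨⟨⊥, Closeds.closure {cls pt}, hne, fun O P hO hP h0 h1 =>
    box_not_separated compatible_tauK O P hO hP h0 h1⟩, hT2, fun hM => hT2 ?_⟩
  let t := tauK MM
  have : MetrizableSpace (Closeds MM) := hM
  exact inferInstanceAs (T2Space (Closeds MM))

end Pool.Agent.Results.MP_3b4475_gt.NotHausdorff
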